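import Pool.Agent.L0h86.JS.Stm
import Pool.Agent.L0h57.JR.LAWR

/-!
# JS/LAWG: the joint law in all residue classes

This follows `Pool/Agent/L0h57/JR/LAWR.lean`.
-/

set_option autoImplicit false
set_option linter.unusedSectionVars false
set_option linter.unusedVariables false
set_option maxHeartbeats 1000000

open scoped Classical

namespace Pool.Agent.L0h81.JS

open Finset Filter
open scoped Topology
open Pool.Agent.L0h74.EV (SE)
open Pool.Agent.L0h74.AP (Cp Cg GS GSg card_low tendsto_div_nat)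
open Pool.Agent.L0h86.JR (amR Sr GdR PatR HyR sysR Cr NQ sqf FamR nR S_DR S_HYR S_TRR S_LAWR)
open Pool.Agent.L0h86.JS
open Pool.Agent.L0h57.JR (ClassFn HtFn ratio sqf_sq sqf_dvd sqf_mul sqf_inj GS_card flt cnt cnt_nat
  ht_natAbs classFn_of natAbs_sgm cop_of)

/-- the translation in all cases -/
theorem trans (hTRR : S_TRR) (hTRG : S_TRG) {u a g m : ℕ} (hc : Cp u a) (h56 : 56 ∣ u)
    (hg : Squarefree g) (hgu : ∀ p, p.Prime → p ∣ g → p ∣ u) (hm : Squarefree m)
    (hma : m % u = a) :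
    GdG (flG g a) (sysG g a) m.primeFactors ↔ CrG (-((g * m : ℕ) : ℤ)) := by
  have hcop : Nat.Coprime m u := by
    rw [Nat.coprime_iff_gcd_eq_one, Nat.gcd_comm, Nat.gcd_rec, hma]
    exact hc.cop
  have hsq : Squarefree (g * m) := by
    rw [Nat.squarefree_mul_iff]
    exact ⟨cop_of hgu hcop, hg, hm⟩
  by_cases hf : flG g a = true
  · obtain ⟨h1, h2⟩ := hTRG.1 u a g m hc h56 hg hgu hm hma hf
    rw [hf, h1, hTRG.2 (g * m) hsq h2]
    unfold CrG
    have h3 : (-((g * m : ℕ) : ℤ)) % 8 = 1 := by omega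
    rw [if_pos h3]
  · have hf' : flG g a = false := by
      rcases h : flG g a with _ | _
      · rfl
      · exact absurd h hf
    have h8 : (g * m) % 8 ≠ 7 := by
      intro h
      apply hf
      have h1 : m % 8 = a % 8 := by
        have h2 : 8 ∣ u := (by norm_num : 8 ∣ 56).trans h56
        rw [← hma, Nat.mod_mod_of_dvd _ h2]
      have h3 : (g * a) % 8 = 7 := by
        rw [Nat.mul_mod, ← h1, ← Nat.mul_mod]
        exact h
      unfold flG
      rw [decide_eq_true_eq]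
      refine ⟨?_, h3⟩
      by_contra h4
      have h5 : g % 2 = 0 := by omega
      have h6 : (g * a) % 2 = 0 := by rw [Nat.mul_mod, h5, zero_mul]; rfl
      omega
    have hs : sysG g a = sysR g a := by
      unfold sysG
      rw [hf']
      simp
    have h3 : GdG false (sysR g a) m.primeFactors ↔ GdR (sysR g a) m.primeFactors := by
      unfold GdG
      simp
    rw [hf', hs, h3, hTRR.1 u a g m hc h56 hg hgu hm hma, hTRR.2 (g * m) hsq h8]
    unfold CrG
    have h4 : ¬ (-((g * m : ℕ) : ℤ)) % 8 = 1 := by omega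
    rw [if_neg h4]

/-- **The joint law of the numbers `g m`.** -/
theorem base (hDG : S_DG) (hHYG : S_HYG) (hTRR : S_TRR) (hTRG : S_TRG) {u a : ℕ} (hc : Cp u a)
    (h56 : 56 ∣ u) {t : ℕ} (g : Fin t → ℕ) (hsq : ∀ l, Squarefree (g l))
    (hu : ∀ l p, p.Prime → p ∣ g l → p ∣ u) (hinj : Function.Injective g) (β : Fin t → Bool) :
    ∀ ε : ℝ, 0 < ε → ∀ᶠ Y : ℕ in atTop,
      |(((GS u a Y).filter fun m => ∀ l, (CrG (-((g l * m : ℕ) : ℤ)) ↔ β l = true)).card : ℝ) -
        amR β * ((GS u a Y).card : ℝ)| ≤ ε * Y := by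
  obtain ⟨n, cl, x, hy⟩ := hHYG u a hc h56 t g hsq hu hinj
  have h4 : 4 ∣ u := (by norm_num : 4 ∣ 56).trans h56
  intro ε hε
  filter_upwards [hDG t n _ _ u a cl x hy β ε hε] with Y hY
  have h1 := GS_card hc h4 Y (PatG (fun l => sysG (g l) a) (fun l => flG (g l) a) β)
  have h2 := GS_card hc h4 Y fun _ => True
  rw [Finset.filter_true, Finset.filter_true] at h2
  rw [h1, h2] at hY
  have h3 : (GS u a Y).filter (fun m => ∀ l, (CrG (-((g l * m : ℕ) : ℤ)) ↔ β l = true)) =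
      (GS u a Y).filter fun D => PatG (fun l => sysG (g l) a) (fun l => flG (g l) a) β
        D.primeFactors := by
    refine Finset.filter_congr fun m hm => ?_
    rw [GS, mem_filter] at hm
    unfold PatG
    refine forall_congr' fun l => ?_
    rw [trans hTRR hTRG hc h56 (hsq l) (hu l) hm.2.1 hm.2.2]
  rw [h3]
  exact hY

/-- the condition on the integers -/
def TG (q r : ℕ) (e : ℤ) : Prop := 0 < e ∧ e % (q : ℤ) = (r : ℤ) % (q : ℤ)

theorem TG_cls {u q : ℕ} (hu0 : 0 < u) (hqu : q ∣ u) (r : ℕ) : ClassFn u (TG q r) := by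
  refine classFn_of hu0 ?_
  rintro s g m m' hs hg hgu hm hm' hc hc' hms hms' hmm ⟨hT1, hT2⟩
  have hg' : (0 : ℤ) < g := by exact_mod_cast hg
  have hm0 : (0 : ℤ) < m := by exact_mod_cast hm
  have hm0' : (0 : ℤ) < m' := by exact_mod_cast hm'
  refine ⟨?_, ?_⟩
  · rcases hs with rfl | rfl
    · positivity
    · exfalso
      have h1 : (-1 * (g : ℤ) * m) = -(g * m) := by ring
      rw [h1] at hT1
      have h2 : (0 : ℤ) < g * m := mul_pos hg' hm0
      linarith
  · have h1 : (m : ℤ) ≡ (m' : ℤ) [ZMOD (q : ℤ)] := by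
      have h2 : m ≡ m' [MOD q] := Nat.ModEq.of_dvd hqu hmm
      exact (Int.natCast_modEq_iff).2 h2
    have h3 : (s * g * m : ℤ) ≡ (s * g * m' : ℤ) [ZMOD (q : ℤ)] := Int.ModEq.mul_left _ h1
    have h4 : (s * g * m : ℤ) ≡ (r : ℤ) [ZMOD (q : ℤ)] := hT2
    exact h3.symm.trans h4

/-- LAWG -/
theorem t_LAWG : S_DG → S_HYG → S_TRR → S_TRG → S_LAWG := by
  intro hDG hHYG hTRR hTRG t d hd0 hinj q r hq hm₀ β
  obtain ⟨m₀, hm₀⟩ := hm₀
  set u : ℕ := 56 * (q * ∏ l, d l) with hu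
  have hP0 : 0 < ∏ l, d l := Finset.prod_pos fun l _ => hd0 l
  have hu0 : 0 < u := by positivity
  have h56 : 56 ∣ u := Dvd.intro _ rfl
  have h14 : 14 ∣ u := (by norm_num : 14 ∣ 56).trans h56
  have hqu : q ∣ u := Dvd.dvd.mul_left (Dvd.intro _ rfl) _
  have hdu : ∀ l p, p.Prime → p ∣ d l → p ∣ u := fun l p _ hp =>
    Dvd.dvd.mul_left (Dvd.dvd.mul_left (hp.trans (Finset.dvd_prod_of_mem
      (fun l => d l) (Finset.mem_univ l))) _) _
  have hnat : ∀ D : ℕ, 0 < D → (TG q r (D : ℤ) ↔ D % q = r % q) := by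
    intro D hD
    unfold TG
    constructor
    · rintro ⟨-, h2⟩
      exact_mod_cast h2
    · intro h2
      refine ⟨by exact_mod_cast hD, ?_⟩
      exact_mod_cast h2
  have hm0 : 0 < m₀ := Nat.pos_of_ne_zero hm₀.1.ne_zero
  have key : Tendsto (fun X : ℕ =>
      ((cnt Int.natAbs (fun e => TG q r e ∧
        ∀ l, (CrG (-(sqf (d l * e.natAbs) : ℤ)) ↔ β l = true)) X : ℕ) : ℝ) /
      ((cnt Int.natAbs (TG q r) X : ℕ) : ℝ)) atTop (𝓝 (amR β)) := by
    refine ratio h14 hu0 (ht_natAbs u) (TG_cls hu0 hqu r)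
      (Int.squarefree_natCast.2 hm₀.1) ((hnat m₀ hm0).2 hm₀.2)
      (fun e => ∀ l, (CrG (-(sqf (d l * e.natAbs) : ℤ)) ↔ β l = true)) (amR β) ?_
    intro s g a hs hg hgu hc ε hε
    have hg0 : 0 < g := Nat.pos_of_ne_zero hg.ne_zero
    have hA : ∀ l, d l * g ≠ 0 := fun l => (Nat.mul_pos (hd0 l) hg0).ne'
    have hAu : ∀ l p, p.Prime → p ∣ d l * g → p ∣ u := by
      intro l p hp h
      rcases (Nat.Prime.dvd_mul hp).1 h with h | h
      · exact hdu l p hp h
      · exact h.trans hgu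
    have hi : Function.Injective fun l => sqf (d l * g) := fun l l' hll =>
      hinj (sqf_inj hg0.ne' (hd0 l).ne' (hd0 l').ne' hll)
    filter_upwards [base hDG hHYG hTRR hTRG hc h56 (fun l => sqf (d l * g)) (fun l => sqf_sq _)
      (fun l p hp h => hAu l p hp (sqf_dvd hp h)) hi β ε hε] with Y hY
    refine le_of_eq_of_le ?_ hY
    refine congrArg (fun n : ℕ => |(n : ℝ) - amR β * ((GS u a Y).card : ℝ)|) ?_
    refine flt _ _ _ _ _ fun m hm => ?_
    rw [GS, mem_filter] at hm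
    have hcop : Nat.Coprime m u := by
      rw [Nat.coprime_iff_gcd_eq_one, Nat.gcd_comm, Nat.gcd_rec, hm.2.2]
      exact hc.cop
    refine forall_congr' fun l => ?_
    rw [natAbs_sgm hs, ← mul_assoc, sqf_mul (hA l) hm.2.1 (cop_of (hAu l) hcop)]
  refine key.congr fun X => ?_
  rw [cnt_nat (T := TG q r) (fun e he => he.1) X,
    cnt_nat (T := fun e => TG q r e ∧ ∀ l, (CrG (-(sqf (d l * e.natAbs) : ℤ)) ↔ β l = true))
      (fun e he => he.1.1) X]
  unfold nR
  refine congrArg₂ (fun a b : ℕ => (a : ℝ) / (b : ℝ)) ?_ ?_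
  · refine flt _ _ _ _ _ fun D hD => ?_
    have h1 := hnat D (mem_Icc.1 hD).1
    rw [h1, Int.natAbs_natCast]
    constructor
    · rintro ⟨h2, h3, h4⟩
      exact ⟨⟨h2, h3⟩, h4⟩
    · rintro ⟨⟨h2, h3⟩, h4⟩
      exact ⟨h2, h3, h4⟩
  · refine flt _ _ _ _ _ fun D hD => ?_
    have h1 := hnat D (mem_Icc.1 hD).1
    rw [h1]
    constructor
    · rintro ⟨h2, h3⟩
      exact ⟨⟨h2, h3⟩, trivial⟩
    · rintro ⟨⟨h2, h3⟩, h4⟩
      exact ⟨h2, h3⟩

end Pool.Agent.L0h81.JS
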